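import Mathlib

namespace Pool.Agent.Results.MP_a310d2_co.Unbounded

def Visible {V : Type} (G : SimpleGraph V) (S : Finset V) (u v : V) : Prop :=
  ∃ p : G.Walk u v, p.length = G.dist u v ∧ ∀ w ∈ p.support, w ≠ u → w ≠ v → w ∉ S

def OuterMV {V : Type} (G : SimpleGraph V) (S : Finset V) : Prop :=
  ∀ u ∈ S, ∀ v, Visible G S u v

noncomputable def muO {V : Type} (G : SimpleGraph V) : ℕ :=
  sSup {k | ∃ S : Finset V, OuterMV G S ∧ S.card = k}

lemma lip {V : Type} (G : SimpleGraph V) (t : V) (φ : V → ℤ)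
    (h : ∀ a b, G.Adj a b → a ≠ t → b ≠ t → φ a ≤ φ b + 1) {u w : V} (p : G.Walk u w)
    (hp : t ∉ p.support) : φ u ≤ φ w + p.length := by
  induction p with
  | nil => simp
  | @cons a b c hab q ih =>
    simp only [SimpleGraph.Walk.support_cons, List.mem_cons, not_or] at hp
    have h1 := h a b hab (fun e => hp.1 e.symm) (fun e => hp.2 (e ▸ q.start_mem_support))
    have h2 := ih hp.2
    simp only [SimpleGraph.Walk.length_cons]
    push_cast
    omega

lemma blocked {V : Type} (G : SimpleGraph V) (S : Finset V) (hS : OuterMV G S) (t u w : V)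
    (ht : t ∈ S) (hu : u ∈ S) (h1 : t ≠ u) (h2 : t ≠ w) (φ : V → ℤ)
    (h : ∀ a b, G.Adj a b → a ≠ t → b ≠ t → φ a ≤ φ b + 1) : φ u ≤ φ w + G.dist u w := by
  obtain ⟨p, hp, hq⟩ := hS u hu w
  rw [← hp]
  exact lip G t φ h p (fun hm => hq t hm h1 h2 ht)

lemma descent {V : Type} (G : SimpleGraph V) (S : Set V) (b : V) (hb : b ∈ S) (r : V → ℕ)
    (h : ∀ v ∈ S, v ≠ b → ∃ u ∈ S, G.Adj v u ∧ r u < r v) (v : S) :
    (G.induce S).Reachable v ⟨b, hb⟩ ∧ ∃ p : G.Walk v b, p.length ≤ r v := by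
  have key : ∀ k, ∀ v : S, r v < k →
      (G.induce S).Reachable v ⟨b, hb⟩ ∧ ∃ p : G.Walk v b, p.length ≤ r v := by
    intro k
    induction k with
    | zero => intro v hv; omega
    | succ k ih =>
      intro v hv
      by_cases e : v.1 = b
      · rw [show v = ⟨b, hb⟩ from Subtype.ext e]
        exact ⟨SimpleGraph.Reachable.refl _, SimpleGraph.Walk.nil, Nat.zero_le _⟩
      · obtain ⟨u, hu, h1, h2⟩ := h v v.2 e
        have a : (G.induce S).Adj v ⟨u, hu⟩ := h1
        obtain ⟨i1, p, hp⟩ := ih ⟨u, hu⟩ (by simp only; omega)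
        refine ⟨a.reachable.trans i1, SimpleGraph.Walk.cons h1 p, ?_⟩
        simp only [SimpleGraph.Walk.length_cons] at hp ⊢
        omega
  exact key _ v (Nat.lt_succ_self _)

abbrev W (m : ℕ) := Option (Fin m × Fin (m + 1))

variable {m : ℕ}

def ix : W m → ℕ
  | none => 0
  | some x => x.1

def dp : W m → ℕ
  | none => 0
  | some x => x.2 + 1

def comb (m : ℕ) : SimpleGraph (W m) where
  Adj u v := (dp u = 0 ∧ dp v = 1) ∨ (dp v = 0 ∧ dp u = 1) ∨
    (0 < dp u ∧ 0 < dp v ∧ ix u = ix v ∧ (dp u + 1 = dp v ∨ dp v + 1 = dp u)) ∨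
    (dp u = m + 1 ∧ dp v = m + 1 ∧ (ix u + 1 = ix v ∨ ix v + 1 = ix u))
  symm := ⟨fun _ _ h => by omega⟩
  loopless := ⟨fun _ h => by omega⟩

lemma adj_iff (u v : W m) : (comb m).Adj u v ↔ (dp u = 0 ∧ dp v = 1) ∨ (dp v = 0 ∧ dp u = 1) ∨
    (0 < dp u ∧ 0 < dp v ∧ ix u = ix v ∧ (dp u + 1 = dp v ∨ dp v + 1 = dp u)) ∨
    (dp u = m + 1 ∧ dp v = m + 1 ∧ (ix u + 1 = ix v ∨ ix v + 1 = ix u)) := Iff.rfl

lemma rng (v : W m) : dp v ≤ m + 1 ∧ (0 < dp v → ix v < m) ∧ (dp v = 0 → ix v = 0) := by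
  rcases v with _ | ⟨i, a⟩
  · simp [dp, ix]
  · have := i.2
    have := a.2
    simp only [dp, ix]
    omega

lemma eq_iff (u v : W m) : u = v ↔ ix u = ix v ∧ dp u = dp v := by
  constructor
  · rintro rfl
    exact ⟨rfl, rfl⟩
  · rintro ⟨h1, h2⟩
    rcases u with _ | ⟨i, a⟩ <;> rcases v with _ | ⟨j, b⟩
    · rfl
    · exact absurd h2 (by simp [dp])
    · exact absurd h2 (by simp [dp])
    · simp only [dp, ix] at h1 h2
      rw [Fin.ext h1, Fin.ext (Nat.succ_injective h2)]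

lemma ex (i d : ℕ) (hi : i < m) (h0 : 0 < d) (h1 : d ≤ m + 1) : ∃ v : W m, ix v = i ∧ dp v = d :=
  ⟨some (⟨i, hi⟩, ⟨d - 1, by omega⟩), rfl, by simp only [dp]; omega⟩

lemma ne_none (v : W m) : v ∈ ({none}ᶜ : Set (W m)) ↔ 0 < dp v := by
  rcases v with _ | ⟨i, a⟩ <;> simp [dp]

def psi (b v : W m) : ℕ :=
  if ix v = ix b then (dp v - dp b) + (dp b - dp v)
  else (m + 1 - dp v) + ((ix v - ix b) + (ix b - ix v)) + (m + 1 - dp b)

lemma step (b : W m) (hb : 0 < dp b) : ∀ v ∈ ({none}ᶜ : Set (W m)), v ≠ b →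
    ∃ u ∈ ({none}ᶜ : Set (W m)), (comb m).Adj v u ∧ psi b u < psi b v := by
  intro v hv hne
  rw [ne_none] at hv
  rw [Ne, eq_iff] at hne
  have r1 := rng v
  have r2 := rng b
  have key : ∀ i d, i < m → 0 < d → d ≤ m + 1 → (∀ u : W m, ix u = i → dp u = d →
      (comb m).Adj v u ∧ psi b u < psi b v) →
      ∃ u ∈ ({none}ᶜ : Set (W m)), (comb m).Adj v u ∧ psi b u < psi b v := by
    intro i d h1 h2 h3 h
    obtain ⟨u, e1, e2⟩ := ex i d h1 h2 h3
    exact ⟨u, (ne_none u).mpr (by omega), h u e1 e2⟩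
  by_cases h : ix v = ix b ∧ dp b < dp v
  · refine key (ix v) (dp v - 1) (by omega) (by omega) (by omega) fun u e1 e2 => ?_
    rw [adj_iff]
    unfold psi
    split_ifs <;> omega
  · by_cases h2 : dp v < m + 1
    · refine key (ix v) (dp v + 1) (by omega) (by omega) (by omega) fun u e1 e2 => ?_
      rw [adj_iff]
      unfold psi
      split_ifs <;> omega
    · by_cases h3 : ix v < ix b
      · refine key (ix v + 1) (m + 1) (by omega) (by omega) (by omega) fun u e1 e2 => ?_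
        rw [adj_iff]
        unfold psi
        split_ifs <;> omega
      · refine key (ix v - 1) (m + 1) (by omega) (by omega) (by omega) fun u e1 e2 => ?_
        rw [adj_iff]
        unfold psi
        split_ifs <;> omega

lemma walk1 (u b : W m) (hu : 0 < dp u) (hb : 0 < dp b) :
    ∃ p : (comb m).Walk u b, p.length ≤ psi b u :=
  (descent (comb m) _ b ((ne_none b).mpr hb) (psi b) (step b hb) ⟨u, (ne_none u).mpr hu⟩).2

lemma walk0 (u : W m) : ∃ p : (comb m).Walk u none, p.length ≤ dp u := by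
  refine (descent (comb m) Set.univ none trivial dp ?_ ⟨u, trivial⟩).2
  intro v _ hv
  have h0 : 0 < dp v := (ne_none v).mp hv
  have r := rng v
  by_cases h : dp v = 1
  · exact ⟨none, trivial, Or.inr (Or.inl ⟨rfl, h⟩), h0⟩
  · obtain ⟨u, e1, e2⟩ := ex (m := m) (ix v) (dp v - 1) (by omega) (by omega) (by omega)
    exact ⟨u, trivial, by rw [adj_iff]; omega, by omega⟩

lemma dist0 (u v : W m) : (comb m).dist u v ≤ dp u + dp v := by
  obtain ⟨p, hp⟩ := walk0 u
  obtain ⟨q, hq⟩ := walk0 v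
  have := SimpleGraph.dist_le (p.append q.reverse)
  simp only [SimpleGraph.Walk.length_append, SimpleGraph.Walk.length_reverse] at this
  omega

lemma up (S : Finset (W m)) (hS : OuterMV (comb m) S) (t u : W m) (ht : t ∈ S) (hu : u ∈ S)
    (hne : t ≠ u) (t0 : 0 < dp t) (t1 : dp t ≤ m) (u0 : 0 < dp u) :
    (ix u = ix t → dp u < dp t) ∧
      (ix u ≠ ix t → 2 * (dp t + dp u) ≤ 2 * m + 4 + ((ix u - ix t) + (ix t - ix u))) := by
  have rt := rng t
  have ru := rng u
  obtain ⟨w, w1, w2⟩ : ∃ w : W m, dp w + 1 = dp t ∧ (0 < dp w → ix w = ix t) := by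
    by_cases h : dp t = 1
    · exact ⟨none, h.symm, fun h => absurd h (lt_irrefl 0)⟩
    · obtain ⟨w, e1, e2⟩ := ex (m := m) (ix t) (dp t - 1) (by omega) (by omega) (by omega)
      exact ⟨w, by omega, fun _ => e1⟩
  have a : (comb m).Adj t w := by
    rw [adj_iff]
    omega
  obtain ⟨p, hp⟩ := walk1 u t u0 t0
  have hd := SimpleGraph.dist_le (p.concat a)
  rw [SimpleGraph.Walk.length_concat] at hd
  have := blocked (comb m) S hS t u w ht hu hne a.ne
    (fun v => if ix v = ix t ∧ 0 < dp v then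
      (if dp v < dp t then (dp t : ℤ) - 1 - dp v else 2 * m + 2 + dp t - dp v)
      else dp v + dp t - 1) (by
    intro a b hab ha hb
    rw [adj_iff] at hab
    rw [Ne, eq_iff] at ha hb
    split_ifs <;> omega)
  rw [Ne, eq_iff] at hne
  unfold psi at hp
  split_ifs at this hp <;> omega

lemma down (S : Finset (W m)) (hS : OuterMV (comb m) S) (t u : W m) (ht : t ∈ S) (hu : u ∈ S)
    (hne : ix u ≠ ix t) (t0 : 0 < dp t) (t1 : dp t ≤ m) (u0 : 0 < dp u) :
    2 * m + ((ix u - ix t) + (ix t - ix u)) ≤ 2 * (dp t + dp u) := by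
  have rt := rng t
  have ru := rng u
  obtain ⟨w, w1, w2⟩ := ex (m := m) (ix t) (dp t + 1) (by omega) (by omega) (by omega)
  have hd := dist0 u w
  have := blocked (comb m) S hS t u w ht hu (fun e => hne (e ▸ rfl))
    (fun e => by rw [← e] at w2; omega)
    (fun v => if dp v = 0 then (2 * m + 2 - dp t : ℤ) else if ix v = ix t then
      (if dp t < dp v then (dp v : ℤ) - (dp t + 1) else dp v + 2 * m + 2 - dp t)
      else min (2 * m + 1 - dp v - dp t + max (ix v - ix t : ℤ) (ix t - ix v))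
        (dp v + 2 * m + 2 - dp t)) (by
    intro a b hab ha hb
    rw [adj_iff] at hab
    rw [Ne, eq_iff] at ha hb
    split_ifs <;> omega)
  split_ifs at this <;> omega

lemma spine (S : Finset (W m)) (hS : OuterMV (comb m) S) (t u v : W m) (ht : t ∈ S) (hu : u ∈ S)
    (t1 : dp t = m + 1) (u1 : dp u = m + 1) (v1 : dp v = m + 1) (h1 : ix u < ix t) :
    ix v ≤ ix t := by
  by_contra h2
  have rv := rng v
  obtain ⟨w, w1, w2⟩ := ex (m := m) (ix t + 1) (m + 1) (by omega) (by omega) (by omega)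
  obtain ⟨p, hp⟩ := walk1 u w (by omega) (by omega)
  have hd := SimpleGraph.dist_le p
  have := blocked (comb m) S hS t u w ht hu (fun e => by rw [e] at h1; omega)
    (fun e => by rw [← e] at w1; omega)
    (fun v => if 0 < dp v ∧ ix t < ix v then (m + 1 - dp v : ℤ) else m + 1) (by
    intro a b hab ha hb
    have := rng a
    have := rng b
    rw [adj_iff] at hab
    rw [Ne, eq_iff] at ha hb
    split_ifs <;> omega)
  unfold psi at hp
  split_ifs at this hp <;> omega

lemma pairs (S : Finset (W m)) (hS : OuterMV (comb m) S) (t u : W m) (ht : t ∈ S) (hu : u ∈ S)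
    (hne : t ≠ u) (t0 : 0 < dp t) (t1 : dp t ≤ m) (u0 : 0 < dp u) (u1 : dp u ≤ m) :
    (ix t < ix u ∧ 2 * m + ix u ≤ 2 * (dp t + dp u) + ix t ∧
        2 * (dp t + dp u) + ix t ≤ 2 * m + 4 + ix u) ∨
      (ix u < ix t ∧ 2 * m + ix t ≤ 2 * (dp t + dp u) + ix u ∧
        2 * (dp t + dp u) + ix u ≤ 2 * m + 4 + ix t) := by
  have h1 := up S hS t u ht hu hne t0 t1 u0
  have h2 := up S hS u t hu ht hne.symm u0 u1 t0
  have h3 : ix u ≠ ix t := by omega
  have h4 := down S hS t u ht hu h3 t0 t1 u0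
  omega

lemma ord4 {A : Type} (F : Finset A) (f : A → ℕ) (hf : Set.InjOn f F) (h : 3 < F.card) :
    ∃ a ∈ F, ∃ b ∈ F, ∃ c ∈ F, ∃ d ∈ F, f a < f b ∧ f b < f c ∧ f c < f d := by
  have hc : (F.image f).card = F.card := Finset.card_image_of_injOn hf
  let e := (F.image f).orderEmbOfFin hc
  have key : ∀ i, ∃ a ∈ F, f a = e i := fun i =>
    Finset.mem_image.mp ((F.image f).orderEmbOfFin_mem hc i)
  obtain ⟨a, ha, e1⟩ := key ⟨0, by omega⟩
  obtain ⟨b, hb, e2⟩ := key ⟨1, by omega⟩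
  obtain ⟨c, hc, e3⟩ := key ⟨2, by omega⟩
  obtain ⟨d, hd, e4⟩ := key ⟨3, by omega⟩
  refine ⟨a, ha, b, hb, c, hc, d, hd, ?_⟩
  rw [e1, e2, e3, e4]
  exact ⟨e.strictMono (by simp [Fin.lt_def]), e.strictMono (by simp [Fin.lt_def]),
    e.strictMono (by simp [Fin.lt_def])⟩

def cls (v : W m) : ℕ := if dp v = 0 then 0 else if dp v = m + 1 then 1 else 2

lemma cls_eq (u v : W m) (h : cls u = cls v) : (dp u = 0 ∧ dp v = 0) ∨
    (dp u = m + 1 ∧ dp v = m + 1) ∨ (0 < dp u ∧ dp u ≤ m ∧ 0 < dp v ∧ dp v ≤ m) := by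
  have := (rng u).1
  have := (rng v).1
  unfold cls at h
  split_ifs at h <;> omega

lemma pairs2 (S : Finset (W m)) (hS : OuterMV (comb m) S) (t u : W m) (ht : t ∈ S) (hu : u ∈ S)
    (hlt : ix t < ix u) (t0 : 0 < dp t) (t1 : dp t ≤ m) (u0 : 0 < dp u) (u1 : dp u ≤ m) :
    2 * m + ix u ≤ 2 * (dp t + dp u) + ix t ∧ 2 * (dp t + dp u) + ix t ≤ 2 * m + 4 + ix u := by
  have := pairs S hS t u ht hu (fun e => by rw [e] at hlt; omega) t0 t1 u0 u1
  omega

lemma small (S : Finset (W m)) (hS : OuterMV (comb m) S) : S.card ≤ 90 := by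
  classical
  have := Finset.card_le_mul_card_image_of_maps_to (s := S)
    (t := Finset.range 3 ×ˢ Finset.range 10) (f := fun v => (cls v, ix v % 10))
    (fun v _ => by
      simp only [Finset.mem_product, Finset.mem_range, cls]
      split_ifs <;> omega) 3 (by
    rintro ⟨x, y⟩ _
    by_contra hlt
    obtain ⟨a, ha, b, hb, c, hc, d, hd, h1, h2, h3⟩ := ord4 _ ix (by
      intro a ha b hb e
      simp only [Finset.coe_filter, Set.mem_setOf_eq, Prod.mk.injEq] at ha hb
      by_contra hne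
      rcases cls_eq a b (ha.2.1.trans hb.2.1.symm) with h | h | h
      · exact hne ((eq_iff a b).mpr ⟨e, by omega⟩)
      · exact hne ((eq_iff a b).mpr ⟨e, by omega⟩)
      · have := pairs S hS a b ha.1 hb.1 hne h.1 h.2.1 h.2.2.1 h.2.2.2
        omega) (not_le.mp hlt)
    simp only [Finset.mem_filter, Prod.mk.injEq] at ha hb hc hd
    obtain ⟨ha, a1, a2⟩ := ha
    obtain ⟨hb, b1, b2⟩ := hb
    obtain ⟨hc, c1, c2⟩ := hc
    obtain ⟨hd, d1, d2⟩ := hd
    have q1 := cls_eq a c (a1.trans c1.symm)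
    have q2 := cls_eq a d (a1.trans d1.symm)
    rcases cls_eq a b (a1.trans b1.symm) with h | h | h
    · have := (rng b).2.2 h.2
      omega
    · have := spine S hS b a c hb ha h.2 h.1 (by omega) h1
      omega
    · have e3 : 0 < dp c ∧ dp c ≤ m := by omega
      have e4 : 0 < dp d ∧ dp d ≤ m := by omega
      clear q1 q2
      have p1 := pairs2 S hS a b ha hb h1 h.1 h.2.1 h.2.2.1 h.2.2.2
      have p2 := pairs2 S hS a c ha hc (by omega) h.1 h.2.1 e3.1 e3.2
      have p4 := pairs2 S hS b c hb hc h2 h.2.2.1 h.2.2.2 e3.1 e3.2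
      have p5 := pairs2 S hS b d hb hd (by omega) h.2.2.1 h.2.2.2 e4.1 e4.2
      have p6 := pairs2 S hS c d hc hd h3 e3.1 e3.2 e4.1 e4.2
      have : ix c ≤ ix b + 8 := by
        clear a2 b2 c2 d2
        omega
      clear p1 p2 p4 p5 p6
      omega)
  simpa using this

lemma conn0 : (comb m).Connected := by
  have h : ∀ u : W m, (comb m).Reachable u none := fun u => ⟨(walk0 u).choose⟩
  exact { preconnected := fun u v => (h u).trans (h v).symm, nonempty := ⟨none⟩ }

lemma conn1 (hm : 0 < m) : ((comb m).induce {none}ᶜ).Connected := by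
  obtain ⟨b, _, hb⟩ := ex (m := m) 0 1 hm (by omega) (by omega)
  have h := fun v => (descent (comb m) _ b ((ne_none b).mpr (by omega)) (psi b)
    (step b (by omega)) v).1
  exact { preconnected := fun u v => (h u).trans (h v).symm, nonempty := ⟨⟨b, (ne_none b).mpr (by omega)⟩⟩ }

lemma big (hm : 0 < m) : m ≤ muO ((comb m).induce {none}ᶜ) := by
  classical
  let g : Fin m → ({none}ᶜ : Set (W m)) := fun i => ⟨some (i, 0), by simp⟩
  have hg : Function.Injective g := fun i j h => by simpa [g] using h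
  refine le_csSup ⟨Fintype.card ({none}ᶜ : Set (W m)), ?_⟩ ⟨Finset.univ.image g, ?_, ?_⟩
  · rintro k ⟨S, _, rfl⟩
    exact Finset.card_le_univ S
  · intro u _ v
    obtain ⟨p, hp, hl⟩ := (conn1 hm).exists_path_of_dist u v
    refine ⟨p, hl, fun w hw h1 h2 hs => ?_⟩
    obtain ⟨i, _, rfl⟩ := Finset.mem_image.mp hs
    obtain ⟨k, hk, hkl⟩ := SimpleGraph.Walk.mem_support_iff_exists_getVert.mp hw
    have k0 : k ≠ 0 := by
      rintro rfl
      exact h1 (hk.symm.trans p.getVert_zero)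
    have k1 : k ≠ p.length := by
      rintro rfl
      exact h2 (hk.symm.trans p.getVert_length)
    have a1 : (comb m).Adj (p.getVert k) (p.getVert (k + 1)) := p.adj_getVert_succ (by omega)
    have a2 : (comb m).Adj (p.getVert (k - 1)) (p.getVert (k - 1 + 1)) :=
      p.adj_getVert_succ (by omega)
    rw [Nat.sub_add_cancel (by omega)] at a2
    have d1 : dp (p.getVert k).1 = 1 := by
      rw [hk]
      rfl
    have n1 := (ne_none _).mp (p.getVert (k + 1)).2
    have n2 := (ne_none _).mp (p.getVert (k - 1)).2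
    rw [adj_iff] at a1 a2
    have e : p.getVert (k + 1) = p.getVert (k - 1) := by
      apply Subtype.ext
      rw [eq_iff]
      omega
    have := hp.getVert_injOn (show k + 1 ≤ p.length by omega) (show k - 1 ≤ p.length by omega) e
    omega
  · rw [Finset.card_image_of_injective _ hg]
    simp

theorem result : ¬ ∃ a b : ℝ, ∀ (V : Type) [Fintype V] (G : SimpleGraph V) (x : V),
    G.Connected → (G.induce {x}ᶜ).Connected →
      (muO (G.induce {x}ᶜ) : ℝ) ≤ a * muO G + b := by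
  rintro ⟨a, b, h⟩
  obtain ⟨m, hm⟩ := exists_nat_gt (|a| * 90 + |b|)
  have h0 : 0 < m := by
    have : (0 : ℝ) < m := lt_of_le_of_lt (by positivity) hm
    exact_mod_cast this
  have h1 := h (W m) (comb m) none conn0 (conn1 h0)
  have h2 : (m : ℝ) ≤ muO ((comb m).induce {none}ᶜ) := by exact_mod_cast big h0
  have h3 : muO (comb m) ≤ 90 := by
    apply csSup_le'
    rintro k ⟨S, hS, rfl⟩
    exact small S hS
  have h4 : (muO (comb m) : ℝ) ≤ 90 := by exact_mod_cast h3
  have h5 : a * muO (comb m) ≤ |a| * 90 :=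
    (mul_le_mul_of_nonneg_right (le_abs_self a) (by positivity)).trans
      (mul_le_mul_of_nonneg_left h4 (abs_nonneg a))
  have := le_abs_self b
  linarith

end Pool.Agent.Results.MP_a310d2_co.Unbounded
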